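import Mathlib

set_option autoImplicit false

open MvPolynomial

namespace Pool.Agent.Lib.MP_8fff0f_ag

section general

variable {G : Type} [AddCommGroup G]

/-- flows on the tripod -/
abbrev Flow (G : Type) [AddCommGroup G] : Type := {g : Fin 3 → G // ∑ i, g i = 0}

/-- the parametrisation whose kernel is the toric ideal -/
noncomputable abbrev param (G : Type) [AddCommGroup G] :
    MvPolynomial (Flow G) ℂ →ₐ[ℂ] MvPolynomial (Fin 3 × G) ℂ :=
  MvPolynomial.aeval
    (fun g : Flow G => ∏ i : Fin 3, (MvPolynomial.X (i, g.1 i) : MvPolynomial (Fin 3 × G) ℂ))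

/-- the marginals of a table of flows -/
noncomputable def marg : (Flow G →₀ ℕ) →+ (Fin 3 × G →₀ ℕ) :=
  Finsupp.liftAddHom (fun f => (multiplesHom (Fin 3 × G →₀ ℕ))
    (∑ i : Fin 3, Finsupp.single (i, f.1 i) 1))

lemma marg_single (f : Flow G) (k : ℕ) :
    marg (Finsupp.single f k) = k • ∑ i : Fin 3, Finsupp.single (i, f.1 i) 1 := by
  simp [marg]

lemma param_monomial (z : Flow G →₀ ℕ) (c : ℂ) :
    param G (monomial z c) = monomial (marg z) c := by
  induction z using Finsupp.induction_linear generalizing c with
  | zero => simp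
  | add f g hf hg =>
    rw [map_add, ← mul_one c, ← monomial_mul, ← monomial_mul, map_mul, hf, hg]
  | single f k =>
    rw [marg_single, ← C_mul_X_pow_eq_monomial, map_mul, map_pow, aeval_C, aeval_X]
    have : (∏ i : Fin 3, (MvPolynomial.X (i, f.1 i) : MvPolynomial (Fin 3 × G) ℂ)) =
        monomial (∑ i : Fin 3, Finsupp.single (i, f.1 i) 1) 1 := by
      rw [monomial_sum_one]; rfl
    rw [this, monomial_pow, one_pow, algebraMap_eq, C_mul_monomial, mul_one]

lemma coeff_eq_zero_of_fiber (p : MvPolynomial (Flow G) ℂ) (hp : param G p = 0)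
    (u : Flow G →₀ ℕ) (hu : ∀ z, marg z = marg u → z = u) : coeff u p = 0 := by
  classical
  have h1 : param G p = ∑ z ∈ p.support, monomial (marg z) (coeff z p) := by
    conv_lhs => rw [p.as_sum]
    rw [map_sum]
    exact Finset.sum_congr rfl fun z _ => param_monomial z _
  have h2 : coeff (marg u) (param G p) = coeff u p := by
    rw [h1, coeff_sum]
    conv_rhs => rw [p.as_sum, coeff_sum]
    refine Finset.sum_congr rfl fun z _ => ?_
    rw [coeff_monomial, coeff_monomial]
    by_cases h : z = u
    · simp [h]
    · rw [if_neg h, if_neg fun h' => h (hu z h')]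
  rw [← h2, hp, coeff_zero]

theorem not_generated (u v : Flow G →₀ ℕ) (huv : marg v = marg u) (hne : v ≠ u)
    (hfib : ∀ z, marg z = marg u → z = u ∨ ∀ f, u f ≠ 0 → z f = 0) (D : ℕ)
    (hD : D < ∑ f ∈ u.support, u f) :
    ¬ ∃ S : Set (MvPolynomial (Flow G) ℂ), (∀ p ∈ S, p.totalDegree ≤ D) ∧
      Ideal.span S = RingHom.ker (param G) := by
  classical
  rintro ⟨S, hS, hspan⟩
  have key : ∀ q ∈ Ideal.span S, ∀ r, coeff u (r * q) = 0 := by
    intro q hq
    induction hq using Submodule.span_induction with
    | mem p hp =>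
      intro r
      have hp0 : param G p = 0 := by
        have : p ∈ RingHom.ker (param G) := hspan ▸ Ideal.subset_span hp
        exact this
      rw [coeff_mul]
      refine Finset.sum_eq_zero fun x hx => ?_
      rw [Finset.HasAntidiagonal.mem_antidiagonal] at hx
      by_cases hm : x.1 = 0
      · have : x.2 = u := by rw [← hx, hm, zero_add]
        rw [this, coeff_eq_zero_of_totalDegree_lt (lt_of_le_of_lt (hS p hp) hD), mul_zero]
      · rw [coeff_eq_zero_of_fiber p hp0 x.2, mul_zero]
        intro z hz
        have h1 : marg (x.1 + z) = marg u := by rw [map_add, hz, ← map_add, hx]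
        rcases hfib _ h1 with h | h
        · rw [← hx] at h; exact add_left_cancel h
        · exfalso
          obtain ⟨f, hf⟩ := Finsupp.ne_iff.mp hm
          have h2 : u f ≠ 0 := by
            rw [← hx, Finsupp.add_apply]
            simp only [Finsupp.coe_zero, Pi.zero_apply] at hf
            omega
          have h3 := h f h2
          rw [Finsupp.add_apply] at h3
          simp only [Finsupp.coe_zero, Pi.zero_apply] at hf
          omega
    | zero => intro r; simp
    | add a b _ _ ha hb => intro r; rw [mul_add, coeff_add, ha, hb, add_zero]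
    | smul a b _ hb => intro r; rw [smul_eq_mul, ← mul_assoc]; exact hb _
  have hmem : (monomial u 1 - monomial v 1 : MvPolynomial (Flow G) ℂ) ∈ Ideal.span S := by
    rw [hspan, RingHom.mem_ker, map_sub, param_monomial, param_monomial, huv, sub_self]
  have := key _ hmem 1
  rw [one_mul, coeff_sub, coeff_monomial, coeff_monomial, if_pos rfl, if_neg hne] at this
  simp at this

lemma marg_apply [Fintype G] [DecidableEq G] (z : Flow G →₀ ℕ) (i : Fin 3) (g : G) :
    marg z (i, g) = ∑ f : Flow G, if f.1 i = g then z f else 0 := by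
  induction z using Finsupp.induction_linear with
  | zero => simp
  | add a b ha hb =>
    rw [map_add, Finsupp.add_apply, ha, hb, ← Finset.sum_add_distrib]
    refine Finset.sum_congr rfl fun f _ => ?_
    split_ifs <;> simp
  | single f k =>
    rw [marg_single, Finset.sum_eq_single f]
    · simp only [Finsupp.smul_apply, Finsupp.finsetSum_apply, Finsupp.single_apply,
        Prod.mk.injEq, if_true]
      rw [Finset.sum_eq_single i]
      · simp
      · intro j _ hj; simp [hj]
      · simp
    · intro b _ hb; simp [hb.symm]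
    · simp

/-- A circuit `W` on a set of flows `T` that is closed under recombination gives an
indispensable binomial. -/
theorem not_generated_of_circuit [Fintype G] [DecidableEq G] (E : ℕ) (T : Fin (E + 2) → Flow G)
    (W : Fin (E + 2) → ℤ) (hinj : Function.Injective T)
    (hclos : ∀ f : Flow G, (∀ i, ∃ e, (T e).1 i = f.1 i) → ∃ e, T e = f)
    (hord : ∀ k, k ≠ 0 → ∃ i, ∀ e, k < e → (T e).1 i ≠ (T k).1 i)
    (hker : ∀ k i, ∑ e, (if (T e).1 i = (T k).1 i then W e else 0) = 0)
    (h0 : W 0 = 1) (h1 : W 1 = -1) (D : ℕ) (hD : D < ∑ e, (W e).toNat) :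
    ¬ ∃ S : Set (MvPolynomial (Flow G) ℂ), (∀ p ∈ S, p.totalDegree ≤ D) ∧
      Ideal.span S = RingHom.ker (param G) := by
  classical
  let tab : (Fin (E + 2) → ℕ) → (Flow G →₀ ℕ) := fun U => ∑ e, Finsupp.single (T e) (U e)
  have tab_T : ∀ U e, tab U (T e) = U e := by
    intro U e
    simp only [tab, Finsupp.finsetSum_apply, Finsupp.single_apply, hinj.eq_iff]
    simp
  have tab_not : ∀ U f, f ∉ Set.range T → tab U f = 0 := by
    intro U f hf
    simp only [tab, Finsupp.finsetSum_apply, Finsupp.single_apply]
    refine Finset.sum_eq_zero fun e _ => if_neg fun h => hf ⟨e, h⟩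
  have marg_T : ∀ z : Flow G →₀ ℕ, (∀ f, f ∉ Set.range T → z f = 0) → ∀ i g,
      marg z (i, g) = ∑ e, if (T e).1 i = g then z (T e) else 0 := by
    intro z hz i g
    rw [marg_apply]
    symm
    apply Fintype.sum_of_injective T hinj
    · intro f hf; simp [hz f hf]
    · intro e; rfl
  have hker' : ∀ i g, ∑ e, (if (T e).1 i = g then W e else 0) = 0 := by
    intro i g
    by_cases h : ∃ k, (T k).1 i = g
    · obtain ⟨k, rfl⟩ := h; exact hker k i
    · refine Finset.sum_eq_zero fun e _ => if_neg fun h' => h ⟨e, h'⟩
  let u := tab fun e => (W e).toNat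
  let v := tab fun e => (-W e).toNat
  refine not_generated u v ?_ ?_ ?_ D ?_
  · ext ⟨i, g⟩
    rw [marg_T _ (tab_not _), marg_T _ (tab_not _)]
    simp only [tab_T]
    have := hker' i g
    zify
    rw [← sub_eq_zero, ← Finset.sum_sub_distrib, ← neg_eq_zero, ← Finset.sum_neg_distrib,
      ← this]
    refine Finset.sum_congr rfl fun e _ => ?_
    split_ifs <;> omega
  · intro h
    have h2 : v (T 0) = u (T 0) := by rw [h]
    rw [tab_T, tab_T, h0] at h2
    simp at h2
  · intro z hz
    have hzsupp : ∀ f, f ∉ Set.range T → z f = 0 := by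
      intro f hf
      have : ∃ i, ∀ e, (T e).1 i ≠ f.1 i := by
        by_contra hcon
        push Not at hcon
        exact hf (hclos f hcon)
      obtain ⟨i, hi⟩ := this
      have h2 : marg u (i, f.1 i) = 0 := by
        rw [marg_T _ (tab_not _)]
        exact Finset.sum_eq_zero fun e _ => if_neg (hi e)
      rw [← hz, marg_apply, Finset.sum_eq_zero_iff] at h2
      simpa using h2 f (Finset.mem_univ _)
    obtain ⟨d, hd⟩ : ∃ d : ℤ, d = (z (T 0) : ℤ) - 1 := ⟨_, rfl⟩
    let Δ : Fin (E + 2) → ℤ := fun e => (z (T e) : ℤ) - (W e).toNat - d * W e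
    have hΔ : ∀ i g, ∑ e, (if (T e).1 i = g then Δ e else 0) = 0 := by
      intro i g
      have h2 : marg z (i, g) = marg u (i, g) := by rw [hz]
      rw [marg_T _ hzsupp, marg_T _ (tab_not _)] at h2
      simp only [tab_T] at h2
      zify at h2
      have h3 := hker' i g
      have h4 : ∑ e, (if (T e).1 i = g then Δ e else 0) =
          ∑ e, (if (T e).1 i = g then (z (T e) : ℤ) else 0) -
          ∑ e, (if (T e).1 i = g then ((W e).toNat : ℤ) else 0) -
          d * ∑ e, (if (T e).1 i = g then W e else 0) := by
        rw [Finset.mul_sum, ← Finset.sum_sub_distrib, ← Finset.sum_sub_distrib]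
        refine Finset.sum_congr rfl fun e _ => ?_
        split_ifs <;> simp [Δ]
      rw [h4, h2, h3]; simp
    have hΔ0 : ∀ k, Δ k = 0 := by
      intro k
      induction k using WellFoundedLT.induction with
      | ind k ih =>
        by_cases hk : k = 0
        · subst hk; simp [Δ, h0, hd]
        · obtain ⟨i, hi⟩ := hord k hk
          have h2 := hΔ i ((T k).1 i)
          rw [Finset.sum_eq_single k] at h2
          · simpa using h2
          · intro e _ he
            rcases lt_or_gt_of_ne he with h | h
            · rw [ih e h]; simp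
            · exact if_neg (hi e h)
          · simp
    have e1 := hΔ0 1
    simp only [Δ, h1] at e1
    have hd2 : d = 0 ∨ d = -1 := by
      simp at e1
      omega
    rcases hd2 with h | h
    · left
      ext f
      by_cases hf : f ∈ Set.range T
      · obtain ⟨e, rfl⟩ := hf
        rw [tab_T]
        have := hΔ0 e
        simp only [Δ, h] at this
        omega
      · rw [hzsupp f hf, tab_not _ f hf]
    · right
      intro f hf
      by_cases hf' : f ∈ Set.range T
      · obtain ⟨e, rfl⟩ := hf'
        rw [tab_T] at hf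
        have := hΔ0 e
        simp only [Δ, h] at this
        omega
      · exact hzsupp f hf'
  · have h2 : ∑ f ∈ u.support, u f = ∑ f, u f := by
      apply Finset.sum_subset (Finset.subset_univ _)
      intro f _ hf
      simpa using hf
    rw [h2, ← Fintype.sum_of_injective T hinj (fun e => (W e).toNat) u (tab_not _)
      (fun e => (tab_T (fun e => (W e).toNat) e).symm)]
    exact hD

end general

end Pool.Agent.Lib.MP_8fff0f_ag
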