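import Mathlib
import Pool.Agent.Lib.MP_8fff0f_ag.Tripod

set_option autoImplicit false

namespace Pool.Agent.Lib.MP_8fff0f_ag

/-- first coordinates of the 74 flows -/
def tA : List ℕ :=
  [46, 46, 736, 535, 736, 600, 724, 724, 190, 190, 600, 525, 294, 154, 154, 294, 542, 294, 88,
   88, 525, 525, 742, 536, 70, 229, 229, 575, 575, 70, 554, 59, 562, 59, 59, 380, 380, 560,
   115, 560, 560, 115, 115, 117, 562, 562, 117, 663, 423, 696, 696, 193, 193, 663, 423, 742,
   742, 396, 536, 536, 396, 554, 24, 24, 542, 87, 314, 178, 87, 535, 178, 178, 314, 314]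

/-- second coordinates of the 74 flows -/
def tB : List ℕ :=
  [380, 746, 380, 652, 516, 652, 652, 743, 743, 516, 516, 181, 181, 321, 560, 321, 73, 644, 89,
   71, 71, 560, 615, 615, 89, 89, 229, 229, 644, 644, 160, 399, 399, 141, 582, 261, 635, 635,
   261, 577, 137, 582, 577, 582, 137, 29, 137, 141, 381, 656, 499, 241, 499, 29, 656, 656, 409,
   381, 241, 409, 241, 391, 160, 300, 391, 391, 73, 300, 300, 746, 342, 478, 342, 478]

/-- third coordinates of the 74 flows -/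
def tC : List ℕ :=
  [335, 730, 406, 335, 270, 270, 146, 55, 589, 55, 406, 55, 286, 286, 47, 146, 146, 584, 584,
   602, 165, 437, 165, 371, 602, 443, 303, 718, 303, 47, 47, 303, 561, 561, 120, 120, 507, 327,
   385, 385, 64, 64, 69, 62, 62, 170, 507, 718, 718, 170, 327, 327, 69, 69, 443, 124, 371, 745,
   745, 577, 124, 577, 577, 437, 589, 283, 374, 283, 374, 241, 241, 105, 105, 730]

/-- the circuit: exponents of the two monomials (positive and negative part) -/
def tW : List ℤ :=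
  [1, -1, -1, -1, 1, -1, 2, -2, 2, -2, 1, 4, -4, 4, -4, -4, 2, 8, -8, 8, -8, 4, 8, -8, -8, 16,
   -16, 16, -16, 8, -4, 32, -32, 32, -64, 64, -64, 64, -64, 64, -128, 128, -64, -64, 64, -32,
   64, -32, 16, 32, -32, -32, 32, 32, -16, -16, 8, -16, 16, -8, 16, 4, 4, -4, -2, -2, -2, 2, 2,
   1, -1, -1, 1, 1]

def tN (e : Fin 74) (i : Fin 3) : ℕ :=
  (if i = 0 then tA else if i = 1 then tB else tC).getD e.1 0

def wZ (e : Fin 74) : ℤ := tW.getD e.1 0

lemma tN_lt : ∀ e i, tN e i < 761 := by decide +kernel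

lemma tN_sum : ∀ e, (tN e 0 + tN e 1 + tN e 2) % 761 = 0 := by decide +kernel

lemma tN_inj : ∀ e e', tN e 0 = tN e' 0 → tN e 1 = tN e' 1 → e = e' := by decide +kernel

lemma tN_memC : ∀ e, tN e 2 ∈ tC := by decide +kernel

lemma tN_clos : ∀ e0 e1, (1522 - tN e0 0 - tN e1 1) % 761 ∈ tC →
    ∃ e, tN e 0 = tN e0 0 ∧ tN e 1 = tN e1 1 := by decide +kernel

lemma tN_ord : ∀ k, k ≠ 0 → ∃ i, ∀ e, k < e → tN e i ≠ tN k i := by decide +kernel

lemma tN_ker : ∀ k i, ∑ e, (if tN e i = tN k i then wZ e else 0) = 0 := by decide +kernel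

lemma wZ_sum : ∑ e, (wZ e).toNat = 764 := by decide +kernel

lemma cast_eq (e k : Fin 74) (i j : Fin 3) :
    ((tN e i : ℕ) : ZMod 761) = (tN k j : ℕ) ↔ tN e i = tN k j := by
  rw [ZMod.natCast_eq_natCast_iff', Nat.mod_eq_of_lt (tN_lt _ _), Nat.mod_eq_of_lt (tN_lt _ _)]

def tF (e : Fin 74) : Flow (ZMod 761) :=
  ⟨fun i => (tN e i : ℕ), by
    rw [Fin.sum_univ_three, ← Nat.cast_add, ← Nat.cast_add, ZMod.natCast_eq_zero_iff]
    exact Nat.dvd_of_mod_eq_zero (tN_sum e)⟩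

theorem zmod_not_generated (D : ℕ) (hD : D < 764) :
    ¬ ∃ S : Set (MvPolynomial (Flow (ZMod 761)) ℂ), (∀ p ∈ S, p.totalDegree ≤ D) ∧
      Ideal.span S = RingHom.ker (param (ZMod 761)) := by
  refine not_generated_of_circuit 72 tF wZ ?_ ?_ ?_ ?_ rfl rfl D (by rw [wZ_sum]; exact hD)
  · intro e e' h
    exact tN_inj e e' ((cast_eq _ _ _ _).mp (congrFun (congrArg Subtype.val h) 0))
      ((cast_eq _ _ _ _).mp (congrFun (congrArg Subtype.val h) 1))
  · intro f hf
    obtain ⟨e0, h0⟩ := hf 0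
    obtain ⟨e1, h1⟩ := hf 1
    obtain ⟨e2, h2⟩ := hf 2
    have hs := f.2
    rw [Fin.sum_univ_three, ← h0, ← h1, ← h2] at hs
    simp only [tF] at hs
    rw [← Nat.cast_add, ← Nat.cast_add, ZMod.natCast_eq_zero_iff] at hs
    have h3 : (1522 - tN e0 0 - tN e1 1) % 761 = tN e2 2 := by
      have := tN_lt e0 0
      have := tN_lt e1 1
      have := tN_lt e2 2
      omega
    obtain ⟨e, he0, he1⟩ := tN_clos e0 e1 (h3 ▸ tN_memC e2)
    refine ⟨e, Subtype.ext ?_⟩
    have a0 : (tF e).1 0 = f.1 0 := by rw [← h0]; simp only [tF, he0]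
    have a1 : (tF e).1 1 = f.1 1 := by rw [← h1]; simp only [tF, he1]
    have a2 : (tF e).1 2 = f.1 2 := by
      have s1 := (tF e).2
      have s2 := f.2
      rw [Fin.sum_univ_three] at s1 s2
      rw [a0, a1] at s1
      exact add_left_cancel (s1.trans s2.symm)
    funext i
    fin_cases i
    exacts [a0, a1, a2]
  · intro k hk
    obtain ⟨i, hi⟩ := tN_ord k hk
    exact ⟨i, fun e he h => hi e he ((cast_eq _ _ _ _).mp h)⟩
  · intro k i
    refine Eq.trans (Finset.sum_congr rfl fun e _ => ?_) (tN_ker k i)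
    simp only [tF, cast_eq]

end Pool.Agent.Lib.MP_8fff0f_ag
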