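import Mathlib
import Pool.Agent.Lib.MP_8fff0f_ag.Tripod

set_option autoImplicit false

open MvPolynomial

namespace Pool.Agent.Lib.MP_8fff0f_ag

variable {G : Type} [AddCommGroup G]

/-- A set of flows closed under recombination whose integer kernel is spanned by `W`
gives an indispensable binomial. -/
theorem not_generated_of_kernel [Fintype G] [DecidableEq G] {ι : Type} [Fintype ι]
    (T : ι → Flow G) (W : ι → ℤ) (e0 e1 : ι) (hinj : Function.Injective T)
    (hclos : ∀ f : Flow G, (∀ i, ∃ e, (T e).1 i = f.1 i) → ∃ e, T e = f)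
    (huniq : ∀ Δ : ι → ℤ, (∀ i g, ∑ e, (if (T e).1 i = g then Δ e else 0) = 0) → Δ e0 = 0 →
      ∀ e, Δ e = 0)
    (hker' : ∀ i g, ∑ e, (if (T e).1 i = g then W e else 0) = 0)
    (h0 : W e0 = 1) (h1 : W e1 = -1) (D : ℕ) (hD : D < ∑ e, (W e).toNat) :
    ¬ ∃ S : Set (MvPolynomial (Flow G) ℂ), (∀ p ∈ S, p.totalDegree ≤ D) ∧
      Ideal.span S = RingHom.ker (param G) := by
  classical
  let tab : (ι → ℕ) → (Flow G →₀ ℕ) := fun U => ∑ e, Finsupp.single (T e) (U e)
  have tab_T : ∀ U e, tab U (T e) = U e := by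
    intro U e
    simp only [tab, Finsupp.finsetSum_apply, Finsupp.single_apply, hinj.eq_iff]
    simp
  have tab_not : ∀ U f, f ∉ Set.range T → tab U f = 0 := by
    intro U f hf
    simp only [tab, Finsupp.finsetSum_apply, Finsupp.single_apply]
    refine Finset.sum_eq_zero fun e _ => if_neg fun h => hf ⟨e, h⟩
  have marg_T : ∀ z : Flow G →₀ ℕ, (∀ f, f ∉ Set.range T → z f = 0) → ∀ i g,
      marg z (i, g) = ∑ e, if (T e).1 i = g then z (T e) else 0 := by
    intro z hz i g
    rw [marg_apply]
    symm
    apply Fintype.sum_of_injective T hinj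
    · intro f hf; simp [hz f hf]
    · intro e; rfl
  let u := tab fun e => (W e).toNat
  let v := tab fun e => (-W e).toNat
  refine not_generated u v ?_ ?_ ?_ D ?_
  · ext ⟨i, g⟩
    rw [marg_T _ (tab_not _), marg_T _ (tab_not _)]
    simp only [tab_T]
    have := hker' i g
    zify
    rw [← sub_eq_zero, ← Finset.sum_sub_distrib, ← neg_eq_zero, ← Finset.sum_neg_distrib,
      ← this]
    refine Finset.sum_congr rfl fun e _ => ?_
    split_ifs <;> omega
  · intro h
    have h2 : v (T e0) = u (T e0) := by rw [h]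
    rw [tab_T, tab_T, h0] at h2
    simp at h2
  · intro z hz
    have hzsupp : ∀ f, f ∉ Set.range T → z f = 0 := by
      intro f hf
      have : ∃ i, ∀ e, (T e).1 i ≠ f.1 i := by
        by_contra hcon
        push Not at hcon
        exact hf (hclos f hcon)
      obtain ⟨i, hi⟩ := this
      have h2 : marg u (i, f.1 i) = 0 := by
        rw [marg_T _ (tab_not _)]
        exact Finset.sum_eq_zero fun e _ => if_neg (hi e)
      rw [← hz, marg_apply, Finset.sum_eq_zero_iff] at h2
      simpa using h2 f (Finset.mem_univ _)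
    obtain ⟨d, hd⟩ : ∃ d : ℤ, d = (z (T e0) : ℤ) - 1 := ⟨_, rfl⟩
    let Δ : ι → ℤ := fun e => (z (T e) : ℤ) - (W e).toNat - d * W e
    have hΔ : ∀ i g, ∑ e, (if (T e).1 i = g then Δ e else 0) = 0 := by
      intro i g
      have h2 : marg z (i, g) = marg u (i, g) := by rw [hz]
      rw [marg_T _ hzsupp, marg_T _ (tab_not _)] at h2
      simp only [tab_T] at h2
      zify at h2
      have h3 := hker' i g
      have h4 : ∑ e, (if (T e).1 i = g then Δ e else 0) =
          ∑ e, (if (T e).1 i = g then (z (T e) : ℤ) else 0) -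
          ∑ e, (if (T e).1 i = g then ((W e).toNat : ℤ) else 0) -
          d * ∑ e, (if (T e).1 i = g then W e else 0) := by
        rw [Finset.mul_sum, ← Finset.sum_sub_distrib, ← Finset.sum_sub_distrib]
        refine Finset.sum_congr rfl fun e _ => ?_
        split_ifs <;> simp [Δ]
      rw [h4, h2, h3]; simp
    have hΔ0 : ∀ k, Δ k = 0 := huniq Δ hΔ (by simp [Δ, h0, hd])
    have e1' := hΔ0 e1
    simp only [Δ, h1] at e1'
    have hd2 : d = 0 ∨ d = -1 := by
      simp at e1'
      omega
    rcases hd2 with h | h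
    · left
      ext f
      by_cases hf : f ∈ Set.range T
      · obtain ⟨e, rfl⟩ := hf
        rw [tab_T]
        have := hΔ0 e
        simp only [Δ, h] at this
        omega
      · rw [hzsupp f hf, tab_not _ f hf]
    · right
      intro f hf
      by_cases hf' : f ∈ Set.range T
      · obtain ⟨e, rfl⟩ := hf'
        rw [tab_T] at hf
        have := hΔ0 e
        simp only [Δ, h] at this
        omega
      · exact hzsupp f hf'
  · have h2 : ∑ f ∈ u.support, u f = ∑ f, u f := by
      apply Finset.sum_subset (Finset.subset_univ _)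
      intro f _ hf
      simpa using hf
    rw [h2, ← Fintype.sum_of_injective T hinj (fun e => (W e).toNat) u (tab_not _)
      (fun e => (tab_T (fun e => (W e).toNat) e).symm)]
    exact hD

/-- value of the integer form `β` (blocks `0, …, N-1` of four coefficients) at `lam` -/
def ev (N : ℕ) (β : ℕ → Fin 4 → ℤ) (lam : ℕ → Fin 4 → G) : G :=
  ∑ m ∈ Finset.range N, ∑ j, β m j • lam m j

lemma ev_add (N : ℕ) (β γ : ℕ → Fin 4 → ℤ) (lam : ℕ → Fin 4 → G) :
    ev N (β + γ) lam = ev N β lam + ev N γ lam := by
  simp [ev, add_smul, Finset.sum_add_distrib]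

lemma ev_zero (N : ℕ) (lam : ℕ → Fin 4 → G) : ev N 0 lam = 0 := by simp [ev]

/-- the top block of `β` is `L` and contains a coefficient `±1` -/
def Piv (β : ℕ → Fin 4 → ℤ) (L : ℕ) : Prop :=
  (∀ m, L < m → ∀ j, β m j = 0) ∧ ∃ j, β L j = 1 ∨ β L j = -1

lemma ev_update (N n : ℕ) (hn : n < N) (β : ℕ → Fin 4 → ℤ) (lam : ℕ → Fin 4 → G)
    (μ : Fin 4 → G) :
    ev N β (Function.update lam n μ) =
      (∑ m ∈ (Finset.range N).erase n, ∑ j, β m j • lam m j) + ∑ j, β n j • μ j := by
  unfold ev
  rw [← Finset.sum_erase_add _ _ (Finset.mem_range.mpr hn), Function.update_self]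
  congr 1
  refine Finset.sum_congr rfl fun m hm => ?_
  rw [Function.update_of_ne (Finset.ne_of_mem_erase hm)]

lemma card_bad [Fintype G] [DecidableEq G] (C : G) (b : Fin 4 → ℤ) (j : Fin 4)
    (hj : b j = 1 ∨ b j = -1) :
    (Finset.univ.filter fun μ : Fin 4 → G => C + ∑ k, b k • μ k = 0).card * Fintype.card G ≤
      Fintype.card (Fin 4 → G) := by
  classical
  have key : ∀ (μ : Fin 4 → G) (g : G),
      ∑ k, b k • (μ + Pi.single j g : Fin 4 → G) k = ∑ k, b k • μ k + b j • g := by
    intro μ g
    simp only [Pi.add_apply, smul_add, Finset.sum_add_distrib]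
    congr 1
    rw [Finset.sum_eq_single j]
    · simp
    · intro k _ hk; simp [hk]
    · simp
  rw [← Finset.card_univ (α := G), ← Finset.card_product, ← Finset.card_univ]
  refine Finset.card_le_card_of_injOn (fun p => p.1 + Pi.single j p.2) (by simp) ?_
  rintro ⟨μ, g⟩ hp ⟨ν, h⟩ hq heq
  simp only [Finset.coe_product, Set.mem_prod, Finset.coe_filter, Finset.mem_univ, true_and,
    Set.mem_setOf_eq] at hp hq
  have h1 := key μ g
  have h2 := key ν h
  simp only at heq
  rw [heq, h2] at h1
  have h3 : ∑ k, b k • μ k = ∑ k, b k • ν k := add_left_cancel (hp.1.trans hq.1.symm)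
  rw [h3] at h1
  have h4 : b j • h = b j • g := add_left_cancel h1
  have h5 : g = h := by
    rcases hj with hj | hj <;> rw [hj] at h4 <;> simpa using h4.symm
  subst h5
  exact Prod.ext (add_right_cancel heq) rfl

/-- Greedy choice of the parameters, block by block. -/
theorem greedy [Fintype G] {J : Type} [Fintype J] (hJ : Fintype.card J < Fintype.card G)
    (N : ℕ) (β : ℕ → J → ℕ → Fin 4 → ℤ) :
    ∃ lam : ℕ → Fin 4 → G, ∀ L < N, ∀ a, Piv (β L a) L → ev N (β L a) lam ≠ 0 := by
  classical
  suffices h : ∀ n ≤ N, ∃ lam : ℕ → Fin 4 → G, ∀ L < n, ∀ a, Piv (β L a) L →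
      ev N (β L a) lam ≠ 0 from h N le_rfl
  intro n
  induction n with
  | zero => intro _; exact ⟨0, fun L hL => absurd hL (Nat.not_lt_zero _)⟩
  | succ n ih =>
    intro hn
    obtain ⟨lam, hlam⟩ := ih (by omega)
    let C : J → G := fun a => ∑ m ∈ (Finset.range N).erase n, ∑ j, β n a m j • lam m j
    let B : J → Finset (Fin 4 → G) := fun a =>
      if Piv (β n a) n then Finset.univ.filter fun μ => C a + ∑ k, β n a n k • μ k = 0 else ∅
    have hB : ∀ a, (B a).card * Fintype.card G ≤ Fintype.card (Fin 4 → G) := by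
      intro a
      by_cases h : Piv (β n a) n
      · obtain ⟨j, hj⟩ := h.2
        simp only [B, if_pos h]
        exact card_bad _ _ j hj
      · simp [B, if_neg h]
    have hlt : (Finset.univ.biUnion B).card < Fintype.card (Fin 4 → G) := by
      have h1 : (Finset.univ.biUnion B).card * Fintype.card G ≤
          Fintype.card J * Fintype.card (Fin 4 → G) := by
        calc _ ≤ (∑ a, (B a).card) * Fintype.card G :=
              Nat.mul_le_mul_right _ Finset.card_biUnion_le
          _ = ∑ a, (B a).card * Fintype.card G := Finset.sum_mul _ _ _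
          _ ≤ ∑ _a : J, Fintype.card (Fin 4 → G) := Finset.sum_le_sum fun a _ => hB a
          _ = _ := by simp
      have h2 : 0 < Fintype.card (Fin 4 → G) := Fintype.card_pos
      have h3 : Fintype.card J * Fintype.card (Fin 4 → G) <
          Fintype.card (Fin 4 → G) * Fintype.card G := by
        rw [mul_comm]; exact Nat.mul_lt_mul_of_pos_left hJ h2
      exact Nat.lt_of_mul_lt_mul_right (lt_of_le_of_lt h1 h3)
    obtain ⟨μ, -, hμ⟩ := Finset.exists_mem_notMem_of_card_lt_card
      (s := Finset.univ.biUnion B) (t := Finset.univ) (by simpa using hlt)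
    refine ⟨Function.update lam n μ, fun L hL a hp => ?_⟩
    rcases Nat.lt_succ_iff_lt_or_eq.mp hL with h | h
    · have h1 := ev_update N n (by omega) (β L a) lam μ
      have h2 := ev_update N n (by omega) (β L a) lam (lam n)
      rw [Function.update_eq_self] at h2
      have h3 : ∀ j, β L a n j = 0 := hp.1 n h
      simp only [h3, zero_smul, Finset.sum_const_zero] at h1 h2
      rw [h1, ← h2]
      exact hlam L h a hp
    · subst h
      rw [ev_update N L (by omega)]
      intro h0
      apply hμ
      refine Finset.mem_biUnion.mpr ⟨a, Finset.mem_univ _, ?_⟩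
      simp only [B, if_pos hp]
      exact Finset.mem_filter.mpr ⟨Finset.mem_univ _, h0⟩

end Pool.Agent.Lib.MP_8fff0f_ag
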