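import Mathlib
import Pool.Agent.Lib.MP_8fff0f_ag.Gr1

set_option autoImplicit false

namespace Pool.Agent.Lib.MP_8fff0f_ag

/-- vertex types of the 14 edge types (12 of the doubling gadget, 2 closing edges) -/
def tyL : List (List ℕ) :=
  [[0,3,0],[4,1,1],[1,0,2],[2,2,3],[0,4,4],[3,0,5],[1,0,0],[3,1,1],[1,2,2],[4,3,3],[0,1,4],
   [2,4,5],[0,0,6],[1,1,6]]

/-- level shifts -/
def shL : List (List ℕ) :=
  [[1,0,0],[0,0,0],[0,1,0],[0,0,0],[1,0,0],[0,1,0],[1,0,0],[0,1,0],[1,0,0],[0,0,0],[0,1,0],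
   [0,0,0],[0,0,0],[0,0,0]]

def ty (s : Fin 14) (i : Fin 3) : ℕ := (tyL.getD s.1 []).getD i.1 0

def sh (s : Fin 14) (i : Fin 3) : ℕ := (shL.getD s.1 []).getD i.1 0

/-- coefficients of a vertex on the parameters of its own level -/
def c0L : List (List (List ℤ)) :=
  [[[1,0,0,0],[0,1,0,0],[-1,0,0,0],[0,0,0,0],[-1,1,-1,0]],
   [[0,0,1,0],[1,-1,1,0],[0,1,0,0],[0,0,1,0],[1,0,0,0]],
   [[0,0,-1,0],[0,0,0,0],[0,-1,0,0],[1,-1,0,0],[-1,0,0,0],[0,0,0,0],[-1,0,-1,0]]]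

/-- coefficients of a vertex on the parameters of the next level -/
def c1L : List (List (List ℤ)) :=
  [[[0,0,0,0],[0,0,0,0],[0,1,0,1],[0,0,0,1],[1,-1,1,1]],
   [[0,0,0,0],[0,0,0,0],[0,-1,1,0],[-1,1,0,0],[0,-1,1,0]],
   [[0,-1,0,0],[-1,1,-1,-1],[0,0,-1,0],[0,0,-1,-1],[-1,1,-1,0],[0,0,-1,-1],[0,0,0,0]]]

def c0 (i : Fin 3) (t : ℕ) (j : Fin 4) : ℤ := ((c0L.getD i.1 []).getD t []).getD j.1 0

def c1 (i : Fin 3) (t : ℕ) (j : Fin 4) : ℤ := ((c1L.getD i.1 []).getD t []).getD j.1 0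

/-- the integer form of the vertex of part `i`, type `t`, level `l` -/
def cf (i : Fin 3) (t l : ℕ) : ℕ → Fin 4 → ℤ := fun m j =>
  (if m = l then c0 i t j else 0) + (if m = l + 1 then c1 i t j else 0)

/-- the form of a triple of vertices -/
def tri (t0 t1 t2 l0 l1 l2 : ℕ) : ℕ → Fin 4 → ℤ := cf 0 t0 l0 + cf 1 t1 l1 + cf 2 t2 l2

/-- the triple is an edge -/
def IsEdge (t0 t1 t2 l0 l1 l2 : ℕ) : Prop :=
  ∃ s : Fin 14, ∃ b : ℕ, ty s 0 = t0 ∧ ty s 1 = t1 ∧ ty s 2 = t2 ∧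
    b + sh s 0 = l0 ∧ b + sh s 1 = l1 ∧ b + sh s 2 = l2

lemma ty_lt : ∀ s : Fin 14, ty s 0 < 5 ∧ ty s 1 < 5 ∧ ty s 2 < 7 := by decide +kernel

lemma sh_le : ∀ s : Fin 14, ∀ i, sh s i ≤ 1 := by decide +kernel

lemma sh_two : ∀ s : Fin 14, sh s 2 = 0 := by decide +kernel

lemma sh_closer : ∀ s : Fin 14, 12 ≤ s.1 → ∀ i, sh s i = 0 := by decide +kernel

lemma ty_six : ∀ s : Fin 14, ty s 2 = 6 ↔ 12 ≤ s.1 := by decide +kernel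

lemma linear : ∀ s s' : Fin 14, ∀ j k : Fin 3, j ≠ k → ty s j = ty s' j → ty s k = ty s' k →
    sh s j + sh s' k = sh s' j + sh s k → s = s' := by decide +kernel

lemma edge_rel : ∀ s : Fin 14, ∀ r : Fin 3, ∀ j,
    tri (ty s 0) (ty s 1) (ty s 2) (sh s 0) (sh s 1) (sh s 2) r.1 j = 0 := by decide +kernel

def chkE (t0 t1 t2 d0 d1 d2 : ℕ) : Bool :=
  decide ((1 ≤ d0 ∧ 1 ≤ d1 ∧ 1 ≤ d2) ∧ ∃ s : Fin 14, ty s 0 = t0 ∧ ty s 1 = t1 ∧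
    ty s 2 = t2 ∧ d2 + sh s 0 = d0 ∧ d2 + sh s 1 = d1)

def chkU (β : ℕ → Fin 4 → ℤ) (r : Fin 5) : Bool :=
  decide ((∃ j, β r j = 1 ∨ β r j = -1) ∧ ∀ r' : Fin 5, r < r' → ∀ j, β r' j = 0)

def chkP (t0 t1 t2 d0 d1 d2 : ℕ) : Bool :=
  decide (∃ r : Fin 5, (2 ≤ r.1 ∨ (1 ≤ d0 ∧ 1 ≤ d1 ∧ 1 ≤ d2)) ∧
    chkU (tri t0 t1 t2 d0 d1 d2) r = true)

lemma check0 : ∀ t0 t1 : Fin 5, ∀ t2 : Fin 7, ∀ d0 d1 d2 : Fin 4,
    (d0.1 = 3 ∨ d1.1 = 3 ∨ d2.1 = 3) →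
    chkE t0 t1 t2 d0 d1 d2 = true ∨ chkP t0 t1 t2 d0 d1 d2 = true := by decide +kernel

lemma check (t0 t1 : Fin 5) (t2 : Fin 7) (d0 d1 d2 : Fin 4)
    (h : d0.1 = 3 ∨ d1.1 = 3 ∨ d2.1 = 3) :
    ((1 ≤ d0.1 ∧ 1 ≤ d1.1 ∧ 1 ≤ d2.1) ∧ ∃ s : Fin 14, ty s 0 = t0.1 ∧ ty s 1 = t1.1 ∧
      ty s 2 = t2.1 ∧ d2.1 + sh s 0 = d0.1 ∧ d2.1 + sh s 1 = d1.1) ∨
    ∃ r : Fin 5, (2 ≤ r.1 ∨ (1 ≤ d0.1 ∧ 1 ≤ d1.1 ∧ 1 ≤ d2.1)) ∧
      (∃ j, tri t0 t1 t2 d0 d1 d2 r j = 1 ∨ tri t0 t1 t2 d0 d1 d2 r j = -1) ∧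
      ∀ r' : Fin 5, r < r' → ∀ j, tri t0 t1 t2 d0 d1 d2 r' j = 0 := by
  have := check0 t0 t1 t2 d0 d1 d2 h
  simpa only [chkE, chkP, chkU, decide_eq_true_eq] using this

lemma cf_shift (i : Fin 3) (t b d r : ℕ) (j : Fin 4) : cf i t (b + d) (b + r) j = cf i t d r j := by
  simp only [cf, add_assoc, Nat.add_left_cancel_iff]

lemma cf_zero (i : Fin 3) (t l m : ℕ) (j : Fin 4) (h : m ≠ l) (h' : m ≠ l + 1) :
    cf i t l m j = 0 := by simp [cf, h, h']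

lemma tri_edge (s : Fin 14) (b : ℕ) :
    tri (ty s 0) (ty s 1) (ty s 2) (b + sh s 0) (b + sh s 1) (b + sh s 2) = 0 := by
  funext m j
  have h0 := sh_le s 0
  have h1 := sh_le s 1
  have h2 := sh_le s 2
  by_cases h : b ≤ m ∧ m < b + 3
  · obtain ⟨r, rfl⟩ := Nat.exists_eq_add_of_le h.1
    have := edge_rel s ⟨r, by omega⟩ j
    simp only [tri, Pi.add_apply, cf_shift, Pi.zero_apply] at this ⊢
    exact this
  · simp only [tri, Pi.add_apply, Pi.zero_apply]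
    rw [cf_zero, cf_zero, cf_zero] <;> first | rfl | omega

lemma cf_rel (i : Fin 3) (t l m r : ℕ) (j : Fin 4) (hl : l ≤ m) (h : 2 ≤ r ∨ 1 ≤ l + 3 - m) :
    cf i t (l + 3) (m + r) j = cf i t (l + 3 - m) r j := by
  by_cases h1 : 1 ≤ l + 3 - m
  · rw [← cf_shift i t m (l + 3 - m) r j]
    congr 1
    omega
  · rw [cf_zero, cf_zero] <;> omega

/-- A triple that is not an edge has a top block with a coefficient `±1`. -/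
theorem pivot {t0 t1 t2 : ℕ} (h0 : t0 < 5) (h1 : t1 < 5) (h2 : t2 < 7) (l0 l1 l2 : ℕ) :
    IsEdge t0 t1 t2 l0 l1 l2 ∨ ∃ L, Piv (tri t0 t1 t2 (l0 + 3) (l1 + 3) (l2 + 3)) L ∧
      ∃ δ ≤ 1, L = l0 + 3 + δ ∨ L = l1 + 3 + δ ∨ L = l2 + 3 + δ := by
  obtain ⟨m, hm0, hm1, hm2, hm⟩ : ∃ m, l0 ≤ m ∧ l1 ≤ m ∧ l2 ≤ m ∧ (l0 = m ∨ l1 = m ∨ l2 = m) :=
    ⟨max l0 (max l1 l2), by omega, by omega, by omega, by omega⟩
  rcases check ⟨t0, h0⟩ ⟨t1, h1⟩ ⟨t2, h2⟩ ⟨l0 + 3 - m, by omega⟩ ⟨l1 + 3 - m, by omega⟩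
    ⟨l2 + 3 - m, by omega⟩ (by simp only; omega) with ⟨hd, s, a0, a1, a2, b0, b1⟩ | ⟨r, hr, hu, hz⟩
  · left
    simp only at hd a0 a1 a2 b0 b1
    have := sh_two s
    exact ⟨s, l2, a0, a1, a2, by omega, by omega, by omega⟩
  · right
    simp only at hr hu hz
    have key : ∀ r' : ℕ, r.1 ≤ r' → ∀ j, tri t0 t1 t2 (l0 + 3) (l1 + 3) (l2 + 3) (m + r') j =
        tri t0 t1 t2 (l0 + 3 - m) (l1 + 3 - m) (l2 + 3 - m) r' j := by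
      intro r' hr' j
      simp only [tri, Pi.add_apply]
      rw [cf_rel _ _ _ _ _ _ hm0 (by omega), cf_rel _ _ _ _ _ _ hm1 (by omega),
        cf_rel _ _ _ _ _ _ hm2 (by omega)]
    obtain ⟨j, hj⟩ := hu
    rw [← key r le_rfl] at hj
    refine ⟨m + r, ⟨fun n hn j' => ?_, j, hj⟩, ?_⟩
    · obtain ⟨r', rfl⟩ := Nat.exists_eq_add_of_le (show m ≤ n by omega)
      by_cases h5 : r' < 5
      · rw [key r' (by omega)]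
        exact hz ⟨r', h5⟩ (by rw [Fin.lt_def]; simp only; omega) j'
      · simp only [tri, Pi.add_apply]
        rw [cf_zero, cf_zero, cf_zero] <;> first | rfl | omega
    · by_contra hcon
      have a0 := hcon ∘ fun h => ⟨0, Nat.zero_le _, h⟩
      have a1 := hcon ∘ fun h => ⟨1, le_rfl, h⟩
      simp only [Function.comp, imp_false] at a0 a1
      simp only [tri, Pi.add_apply] at hj
      rw [cf_zero, cf_zero, cf_zero] at hj <;> omega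

end Pool.Agent.Lib.MP_8fff0f_ag
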