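import Mathlib
import Pool.Agent.Lib.MP_8fff0f_ag.Gr2

set_option autoImplicit false

open MvPolynomial

namespace Pool.Agent.Lib.MP_8fff0f_ag

/-- sum of the weights of the edges through the vertex `(i, t, m)` -/
def mrg (D : ℕ → Fin 14 → ℤ) (i : Fin 3) (t m : ℕ) : ℤ :=
  ∑ s : Fin 14, if ty s i = t ∧ sh s i ≤ m then D (m - sh s i) s else 0

lemma sum14 (f : Fin 14 → ℤ) : ∑ s, f s = f 0 + f 1 + f 2 + f 3 + f 4 + f 5 + f 6 + f 7 + f 8 +
    f 9 + f 10 + f 11 + f 12 + f 13 := by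
  simp only [Fin.sum_univ_castSucc, Fin.sum_univ_zero, zero_add]
  rfl

lemma mrg_C (D : ℕ → Fin 14 → ℤ) (m : ℕ) :
    mrg D 2 0 m = D m 0 + D m 6 ∧ mrg D 2 1 m = D m 1 + D m 7 ∧ mrg D 2 2 m = D m 2 + D m 8 ∧
    mrg D 2 3 m = D m 3 + D m 9 ∧ mrg D 2 4 m = D m 4 + D m 10 ∧ mrg D 2 5 m = D m 5 + D m 11 ∧
    mrg D 2 6 m = D m 12 + D m 13 := by
  simp [mrg, sum14, ty, sh, tyL, shL]

lemma mrg_I (D : ℕ → Fin 14 → ℤ) (m : ℕ) :
    mrg D 0 2 m = D m 3 + D m 11 ∧ mrg D 0 3 m = D m 5 + D m 7 ∧ mrg D 0 4 m = D m 1 + D m 9 ∧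
    mrg D 1 2 m = D m 3 + D m 8 ∧ mrg D 1 3 m = D m 0 + D m 9 ∧ mrg D 1 4 m = D m 4 + D m 11 := by
  simp [mrg, sum14, ty, sh, tyL, shL]

lemma mrg_0 (D : ℕ → Fin 14 → ℤ) :
    mrg D 0 0 0 = D 0 10 + D 0 12 ∧ mrg D 0 1 0 = D 0 2 + D 0 13 ∧
    mrg D 1 0 0 = D 0 6 + D 0 12 ∧ mrg D 1 1 0 = D 0 1 + D 0 13 := by
  simp [mrg, sum14, ty, sh, tyL, shL]

lemma mrg_S (D : ℕ → Fin 14 → ℤ) (m : ℕ) :
    mrg D 0 0 (m + 1) = D m 0 + D m 4 + D (m + 1) 10 + D (m + 1) 12 ∧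
    mrg D 0 1 (m + 1) = D (m + 1) 2 + D m 6 + D m 8 + D (m + 1) 13 ∧
    mrg D 1 0 (m + 1) = D m 2 + D m 5 + D (m + 1) 6 + D (m + 1) 12 ∧
    mrg D 1 1 (m + 1) = D (m + 1) 1 + D m 7 + D m 10 + D (m + 1) 13 := by
  simp [mrg, sum14, ty, sh, tyL, shL]

lemma mrg_big (D : ℕ → Fin 14 → ℤ) (i : Fin 3) (t m : ℕ) (h : ∀ s, ty s i ≠ t) :
    mrg D i t m = 0 :=
  Finset.sum_eq_zero fun s _ => if_neg fun h' => h s h'.1

/-- the edges that are used: gadget edges below level `K`, closing edges at levels `0`, `K` -/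
def Pres (K l : ℕ) (s : Fin 14) : Prop :=
  (s.1 < 12 ∧ l < K) ∨ (12 ≤ s.1 ∧ (l = 0 ∨ l = K))

/-- the kernel vector -/
def wt (K l : ℕ) (s : Fin 14) : ℤ :=
  if s.1 < 6 then (if l < K then 2 ^ l else 0)
  else if s.1 < 12 then (if l < K then -2 ^ l else 0)
  else if s.1 = 12 then (if l = 0 then 1 else if l = K then -2 ^ K else 0)
  else (if l = 0 then -1 else if l = K then 2 ^ K else 0)

lemma wt_not {K l : ℕ} {s : Fin 14} (h : ¬ Pres K l s) : wt K l s = 0 := by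
  unfold Pres at h
  unfold wt
  split_ifs <;> first | rfl | omega

lemma mrg_wt {K : ℕ} (hK : 1 ≤ K) (i : Fin 3) (t m : ℕ) : mrg (wt K) i t m = 0 := by
  by_cases h : ∃ s, ty s i = t
  swap
  · exact mrg_big _ _ _ _ fun s hs => h ⟨s, hs⟩
  obtain ⟨s, rfl⟩ := h
  have hC := mrg_C (wt K) m
  have hI := mrg_I (wt K) m
  have hC' : mrg (wt K) 2 0 m = 0 ∧ mrg (wt K) 2 1 m = 0 ∧ mrg (wt K) 2 2 m = 0 ∧
      mrg (wt K) 2 3 m = 0 ∧ mrg (wt K) 2 4 m = 0 ∧ mrg (wt K) 2 5 m = 0 ∧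
      mrg (wt K) 2 6 m = 0 := by
    obtain ⟨a0, a1, a2, a3, a4, a5, a6⟩ := hC
    rw [a0, a1, a2, a3, a4, a5, a6]
    simp only [wt]
    norm_num
    split_ifs <;> simp
  have hI' : mrg (wt K) 0 2 m = 0 ∧ mrg (wt K) 0 3 m = 0 ∧ mrg (wt K) 0 4 m = 0 ∧
      mrg (wt K) 1 2 m = 0 ∧ mrg (wt K) 1 3 m = 0 ∧ mrg (wt K) 1 4 m = 0 := by
    obtain ⟨a0, a1, a2, a3, a4, a5⟩ := hI
    rw [a0, a1, a2, a3, a4, a5]
    simp only [wt]
    norm_num
    split_ifs <;> simp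
  have hJ : mrg (wt K) 0 0 m = 0 ∧ mrg (wt K) 0 1 m = 0 ∧ mrg (wt K) 1 0 m = 0 ∧
      mrg (wt K) 1 1 m = 0 := by
    rcases m with _ | m
    · obtain ⟨a0, a1, a2, a3⟩ := mrg_0 (wt K)
      rw [a0, a1, a2, a3]
      simp only [wt]
      norm_num [show 0 < K by omega]
    · obtain ⟨a0, a1, a2, a3⟩ := mrg_S (wt K) m
      rw [a0, a1, a2, a3]
      simp only [wt]
      norm_num
      rcases lt_trichotomy (m + 1) K with h | h | h
      · simp only [if_pos h, if_pos (show m < K by omega), if_neg (show ¬ m + 1 = K by omega)]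
        refine ⟨?_, ?_, ?_, ?_⟩ <;> ring
      · subst h
        simp only [lt_irrefl, if_false, if_true, Nat.lt_succ_self]
        refine ⟨?_, ?_, ?_, ?_⟩ <;> ring
      · simp only [if_neg (show ¬ m + 1 < K by omega), if_neg (show ¬ m < K by omega),
          if_neg (show ¬ m + 1 = K by omega)]
        simp
  obtain ⟨h0, h1, h2⟩ := ty_lt s
  fin_cases i
  · show mrg (wt K) 0 (ty s 0) m = 0
    generalize ty s 0 = t at h0
    interval_cases t <;> tauto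
  · show mrg (wt K) 1 (ty s 1) m = 0
    generalize ty s 1 = t at h1
    interval_cases t <;> tauto
  · show mrg (wt K) 2 (ty s 2) m = 0
    generalize ty s 2 = t at h2
    interval_cases t <;> tauto

lemma mrg_uniq {K : ℕ} (hK : 1 ≤ K) (D : ℕ → Fin 14 → ℤ) (hD : ∀ l s, ¬ Pres K l s → D l s = 0)
    (hm : ∀ i t m, mrg D i t m = 0) (h0 : D 0 12 = 0) : ∀ l s, D l s = 0 := by
  have reg : ∀ m, D m 10 = 0 → ∀ s : Fin 14, s.1 < 12 → D m s = 0 := by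
    intro m h10 s hs
    have hC := mrg_C D m
    have hI := mrg_I D m
    simp only [hm] at hC hI
    obtain ⟨a0, a1, a2, a3, a4, a5, -⟩ := hC
    obtain ⟨b0, b1, b2, b3, b4, b5⟩ := hI
    have : D m 0 = 0 ∧ D m 1 = 0 ∧ D m 2 = 0 ∧ D m 3 = 0 ∧ D m 4 = 0 ∧ D m 5 = 0 ∧ D m 6 = 0 ∧
        D m 7 = 0 ∧ D m 8 = 0 ∧ D m 9 = 0 ∧ D m 10 = 0 ∧ D m 11 = 0 := by omega
    obtain ⟨s, hs'⟩ := s
    simp only at hs
    interval_cases s <;> tauto
  have step : ∀ m, D m 10 = 0 ∧ D m 12 = 0 := by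
    intro m
    induction m with
    | zero =>
      have := (mrg_0 D).1
      rw [hm] at this
      omega
    | succ m ih =>
      have h1 := (mrg_S D m).1
      rw [hm, reg m ih.1 0 (by decide), reg m ih.1 4 (by decide)] at h1
      by_cases h : m + 1 < K
      · have := hD (m + 1) 12 (by unfold Pres; simp only [show (12 : Fin 14).1 = 12 from rfl]; omega)
        omega
      · have := hD (m + 1) 10 (by unfold Pres; simp only [show (10 : Fin 14).1 = 10 from rfl]; omega)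
        omega
  intro l s
  by_cases hs : s.1 < 12
  · exact reg l (step l).1 s hs
  · have h1 := (mrg_C D l).2.2.2.2.2.2
    rw [hm, (step l).2] at h1
    have : s = 12 ∨ s = 13 := by
      obtain ⟨s, hs'⟩ := s
      simp only [Fin.ext_iff] at hs ⊢
      show s = 12 ∨ s = 13
      omega
    rcases this with rfl | rfl
    · exact (step l).2
    · omega

end Pool.Agent.Lib.MP_8fff0f_ag
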