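import Mathlib
import Pool.Agent.Lib.MP_8fff0f_ag.Gr3

set_option autoImplicit false

open MvPolynomial

namespace Pool.Agent.Lib.MP_8fff0f_ag

variable {G : Type} [AddCommGroup G]

/-- The only zero-sum triples of labels up to level `K` are edges. -/
def Good (K N : ℕ) (lam : ℕ → Fin 4 → G) : Prop :=
  ∀ t0 < 5, ∀ t1 < 5, ∀ t2 < 7, ∀ l0 ≤ K, ∀ l1 ≤ K, ∀ l2 ≤ K,
    ev N (tri t0 t1 t2 (l0 + 3) (l1 + 3) (l2 + 3)) lam = 0 → IsEdge t0 t1 t2 l0 l1 l2

lemma Pres.le {K l : ℕ} {s : Fin 14} (h : Pres K l s) (i : Fin 3) : l + sh s i ≤ K := by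
  rcases h with h | h
  · have := sh_le s i; omega
  · rw [sh_closer s h.1 i]; omega

lemma ev_tri (N t0 t1 t2 l0 l1 l2 : ℕ) (lam : ℕ → Fin 4 → G) :
    ev N (tri t0 t1 t2 l0 l1 l2) lam =
      ev N (cf 0 t0 l0) lam + ev N (cf 1 t1 l1) lam + ev N (cf 2 t2 l2) lam := by
  rw [tri, ev_add, ev_add]

lemma ev_edge (N : ℕ) (s : Fin 14) (l : ℕ) (lam : ℕ → Fin 4 → G) :
    ev N (cf 0 (ty s 0) (l + sh s 0 + 3)) lam + ev N (cf 1 (ty s 1) (l + sh s 1 + 3)) lam +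
      ev N (cf 2 (ty s 2) (l + sh s 2 + 3)) lam = 0 := by
  rw [← ev_tri, add_right_comm l _ 3, add_right_comm l _ 3, add_right_comm l _ 3, tri_edge, ev_zero]

lemma Good.inj {K N : ℕ} {lam : ℕ → Fin 4 → G} (hg : Good K N lam) {l l' : ℕ} {s s' : Fin 14}
    (h : Pres K l s) (h' : Pres K l' s') (i : Fin 3)
    (he : ev N (cf i (ty s i) (l + sh s i + 3)) lam = ev N (cf i (ty s' i) (l' + sh s' i + 3)) lam) :
    ty s i = ty s' i ∧ l + sh s i = l' + sh s' i := by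
  have e := ev_edge N s l lam
  obtain ⟨a0, a1, a2⟩ := ty_lt s
  obtain ⟨b0, b1, b2⟩ := ty_lt s'
  fin_cases i
  · simp only [Fin.zero_eta] at he ⊢
    rw [he, ← ev_tri] at e
    obtain ⟨u, b, c0, c1, c2, d0, d1, d2⟩ := hg _ b0 _ a1 _ a2 _ (h'.le 0) _ (h.le 1) _ (h.le 2) e
    have : u = s := linear u s 1 2 (by decide) c1 c2 (by omega)
    subst this
    exact ⟨c0, by omega⟩
  · simp only [Fin.mk_one] at he ⊢
    rw [he, ← ev_tri] at e
    obtain ⟨u, b, c0, c1, c2, d0, d1, d2⟩ := hg _ a0 _ b1 _ a2 _ (h.le 0) _ (h'.le 1) _ (h.le 2) e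
    have : u = s := linear u s 0 2 (by decide) c0 c2 (by omega)
    subst this
    exact ⟨c1, by omega⟩
  · simp only [Fin.reduceFinMk] at he ⊢
    rw [he, ← ev_tri] at e
    obtain ⟨u, b, c0, c1, c2, d0, d1, d2⟩ := hg _ a0 _ a1 _ b2 _ (h.le 0) _ (h.le 1) _ (h'.le 2) e
    have : u = s := linear u s 0 1 (by decide) c0 c1 (by omega)
    subst this
    exact ⟨c2, by omega⟩

/-- index set of the flows of the chain of length `K` -/
abbrev Idx (K : ℕ) : Type := {p : Fin (K + 1) × Fin 14 // Pres K p.1.1 p.2}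

open Classical in
lemma sum_idx {K : ℕ} (D : ℕ → Fin 14 → ℤ) (hD : ∀ l s, ¬ Pres K l s → D l s = 0)
    (i : Fin 3) (t m : ℕ) :
    ∑ e : Idx K, (if ty e.1.2 i = t ∧ e.1.1.1 + sh e.1.2 i = m then D e.1.1.1 e.1.2 else 0) =
      mrg D i t m := by
  rw [← Finset.sum_subtype (Finset.univ.filter fun p : Fin (K + 1) × Fin 14 => Pres K p.1.1 p.2)
    (by simp) (fun p => if ty p.2 i = t ∧ p.1.1 + sh p.2 i = m then D p.1.1 p.2 else 0),
    Finset.sum_filter]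
  rw [Fintype.sum_prod_type_right, mrg]
  refine Finset.sum_congr rfl fun s _ => ?_
  have h1 : ∀ l : Fin (K + 1), (if Pres K l.1 s then
      (if ty s i = t ∧ l.1 + sh s i = m then D l.1 s else 0) else 0) =
      (if ty s i = t ∧ l.1 + sh s i = m then D l.1 s else 0) := by
    intro l
    by_cases h : Pres K l.1 s
    · rw [if_pos h]
    · rw [if_neg h, hD _ _ h, ite_self]
  simp only [h1]
  by_cases h : ty s i = t ∧ sh s i ≤ m
  · rw [if_pos h]
    by_cases h2 : m - sh s i < K + 1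
    · rw [Finset.sum_eq_single ⟨m - sh s i, h2⟩]
      · exact if_pos ⟨h.1, by simp only; omega⟩
      · intro l _ hl
        refine if_neg fun h' => hl (Fin.ext ?_)
        simp only; omega
      · simp
    · rw [hD _ _ (by unfold Pres; omega)]
      exact Finset.sum_eq_zero fun l _ => if_neg fun h' => by have := l.2; omega
  · rw [if_neg h]
    exact Finset.sum_eq_zero fun l _ => if_neg fun h' => h ⟨h'.1, by omega⟩

/-- A good labelling of the chain of length `K` forces a generator of degree `≥ 2 ^ K`. -/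
theorem chain [Fintype G] {K N : ℕ} (hK : 1 ≤ K) {lam : ℕ → Fin 4 → G} (hg : Good K N lam)
    (S : Set (MvPolynomial (Flow G) ℂ)) (hS : Ideal.span S = RingHom.ker (param G)) :
    ∃ p ∈ S, 2 ^ K ≤ p.totalDegree := by
  classical
  by_contra hcon
  push Not at hcon
  let T : Idx K → Flow G := fun e =>
    ⟨fun i => ev N (cf i (ty e.1.2 i) (e.1.1.1 + sh e.1.2 i + 3)) lam, by
      rw [Fin.sum_univ_three]; exact ev_edge N _ _ lam⟩
  have hT : ∀ e e' : Idx K, ∀ i, (T e).1 i = (T e').1 i ↔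
      ty e.1.2 i = ty e'.1.2 i ∧ e.1.1.1 + sh e.1.2 i = e'.1.1.1 + sh e'.1.2 i := by
    intro e e' i
    refine ⟨fun h => hg.inj e.2 e'.2 i h, fun h => ?_⟩
    simp only [T, h.1, h.2]
  have p0 : Pres K 0 12 := Or.inr ⟨by decide, Or.inl rfl⟩
  have p1 : Pres K 0 13 := Or.inr ⟨by decide, Or.inl rfl⟩
  have p2 : Pres K K 13 := Or.inr ⟨by decide, Or.inr rfl⟩
  have hpos : 0 < 2 ^ K := by positivity
  refine not_generated_of_kernel T (fun e => wt K e.1.1.1 e.1.2) ⟨(0, 12), p0⟩ ⟨(0, 13), p1⟩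
    ?_ ?_ ?_ ?_ (by simp [wt]) (by simp [wt]) (2 ^ K - 1) ?_
    ⟨S, fun p hp => by have := hcon p hp; omega, hS⟩
  · intro e e' h
    obtain ⟨a0, b0⟩ := (hT e e' 0).mp (by rw [h])
    obtain ⟨a1, b1⟩ := (hT e e' 1).mp (by rw [h])
    have hs : e.1.2 = e'.1.2 := linear _ _ 0 1 (by decide) a0 a1 (by omega)
    rw [hs] at b0
    exact Subtype.ext (Prod.ext (Fin.ext (by omega)) hs)
  · intro f hf
    obtain ⟨e0, h0⟩ := hf 0
    obtain ⟨e1, h1⟩ := hf 1
    obtain ⟨e2, h2⟩ := hf 2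
    have hs := f.2
    rw [Fin.sum_univ_three, ← h0, ← h1, ← h2] at hs
    simp only [T] at hs
    rw [← ev_tri] at hs
    obtain ⟨u, b, c0, c1, c2, d0, d1, d2⟩ := hg _ (ty_lt _).1 _ (ty_lt _).2.1 _ (ty_lt _).2.2
      _ (e0.2.le 0) _ (e1.2.le 1) _ (e2.2.le 2) hs
    have hb : b = e2.1.1.1 := by rw [sh_two, sh_two] at d2; exact d2
    have hp : Pres K b u := by
      have q := e2.2
      have r1 := ty_six u
      have r2 := ty_six e2.1.2
      unfold Pres at q ⊢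
      rw [c2] at r1
      omega
    refine ⟨⟨(⟨b, hb ▸ e2.1.1.2⟩, u), hp⟩, Subtype.ext (funext fun i => ?_)⟩
    fin_cases i
    · exact ((hT _ e0 0).mpr ⟨c0, d0⟩).trans h0
    · exact ((hT _ e1 1).mpr ⟨c1, d1⟩).trans h1
    · exact ((hT _ e2 2).mpr ⟨c2, d2⟩).trans h2
  · intro Δ hΔ hΔ0
    let D : ℕ → Fin 14 → ℤ := fun l s =>
      if h : l < K + 1 ∧ Pres K l s then Δ ⟨(⟨l, h.1⟩, s), h.2⟩ else 0
    have hD : ∀ l s, ¬ Pres K l s → D l s = 0 := fun l s h => dif_neg fun h' => h h'.2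
    have hDe : ∀ e : Idx K, D e.1.1.1 e.1.2 = Δ e := fun e => dif_pos ⟨e.1.1.2, e.2⟩
    have hm : ∀ i t m, mrg D i t m = 0 := by
      intro i t m
      rw [← sum_idx D hD]
      by_cases h : ∃ e' : Idx K, ty e'.1.2 i = t ∧ e'.1.1.1 + sh e'.1.2 i = m
      · obtain ⟨e', rfl, rfl⟩ := h
        refine Eq.trans (Finset.sum_congr rfl fun e _ => ?_) (hΔ i ((T e').1 i))
        simp only [hT, hDe]
      · exact Finset.sum_eq_zero fun e _ => if_neg fun h' => h ⟨e, h'⟩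
    intro e
    rw [← hDe]
    exact mrg_uniq hK D hD hm ((hDe ⟨(0, 12), p0⟩).trans hΔ0) _ _
  · intro i g
    by_cases h : ∃ e' : Idx K, (T e').1 i = g
    · obtain ⟨e', rfl⟩ := h
      refine Eq.trans (Finset.sum_congr rfl fun e _ => ?_)
        ((sum_idx (wt K) (fun l s => wt_not) i _ _).trans
          (mrg_wt hK i (ty e'.1.2 i) (e'.1.1.1 + sh e'.1.2 i)))
      simp only [hT]
    · exact Finset.sum_eq_zero fun e _ => if_neg fun h' => h ⟨e, h'⟩
  · have h1 := Finset.single_le_sum (f := fun e : Idx K => (wt K e.1.1.1 e.1.2).toNat)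
      (fun _ _ => Nat.zero_le _) (Finset.mem_univ (⟨(Fin.last K, 13), p2⟩ : Idx K))
    have h2 : (wt K K 13).toNat = 2 ^ K := by
      have : wt K K 13 = ((2 ^ K : ℕ) : ℤ) := by simp [wt, show K ≠ 0 by omega]
      rw [this, Int.toNat_natCast]
    simp only [Fin.val_last, h2] at h1
    omega

/-- Greedy labels exist in every abelian group with more than `1050 (K+1)²` elements. -/
theorem exists_good [Fintype G] (K : ℕ) (h : 1050 * (K + 1) ^ 2 < Fintype.card G) :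
    ∃ lam : ℕ → Fin 4 → G, Good K (K + 5) lam := by
  let β : ℕ → (Fin 3 × Fin 2 × Fin 5 × Fin 5 × Fin 7 × Fin (K + 1) × Fin (K + 1)) →
      ℕ → Fin 4 → ℤ := fun L a =>
    if a.1 = 0 then tri a.2.2.1 a.2.2.2.1 a.2.2.2.2.1 (L - a.2.1) (a.2.2.2.2.2.1 + 3)
      (a.2.2.2.2.2.2 + 3)
    else if a.1 = 1 then tri a.2.2.1 a.2.2.2.1 a.2.2.2.2.1 (a.2.2.2.2.2.1 + 3) (L - a.2.1)
      (a.2.2.2.2.2.2 + 3)
    else tri a.2.2.1 a.2.2.2.1 a.2.2.2.2.1 (a.2.2.2.2.2.1 + 3) (a.2.2.2.2.2.2 + 3) (L - a.2.1)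
  obtain ⟨lam, hlam⟩ := greedy (G := G) (by
    simp only [Fintype.card_prod, Fintype.card_fin]; nlinarith) (K + 5) β
  refine ⟨lam, fun t0 h0 t1 h1 t2 h2 l0 k0 l1 k1 l2 k2 hz => ?_⟩
  rcases pivot h0 h1 h2 l0 l1 l2 with h | ⟨L, hp, δ, hδ, hL⟩
  · exact h
  exfalso
  rcases hL with hL | hL | hL
  · have e : β L (0, ⟨δ, by omega⟩, ⟨t0, h0⟩, ⟨t1, h1⟩, ⟨t2, h2⟩, ⟨l1, by omega⟩, ⟨l2, by omega⟩) =
        tri t0 t1 t2 (l0 + 3) (l1 + 3) (l2 + 3) := by
      simp only [β, if_true, hL, Nat.add_sub_cancel]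
    exact hlam L (by omega) _ (e ▸ hp) (e ▸ hz)
  · have e : β L (1, ⟨δ, by omega⟩, ⟨t0, h0⟩, ⟨t1, h1⟩, ⟨t2, h2⟩, ⟨l0, by omega⟩, ⟨l2, by omega⟩) =
        tri t0 t1 t2 (l0 + 3) (l1 + 3) (l2 + 3) := by
      simp only [β, if_true, hL, Nat.add_sub_cancel, one_ne_zero, if_false]
    exact hlam L (by omega) _ (e ▸ hp) (e ▸ hz)
  · have e : β L (2, ⟨δ, by omega⟩, ⟨t0, h0⟩, ⟨t1, h1⟩, ⟨t2, h2⟩, ⟨l0, by omega⟩, ⟨l1, by omega⟩) =
        tri t0 t1 t2 (l0 + 3) (l1 + 3) (l2 + 3) := by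
      simp only [β, hL, Nat.add_sub_cancel, if_neg (show ¬ (2 : Fin 3) = 0 by decide),
        if_neg (show ¬ (2 : Fin 3) = 1 by decide)]
    exact hlam L (by omega) _ (e ▸ hp) (e ▸ hz)

theorem every_group [Fintype G] {K : ℕ} (hK : 1 ≤ K) (h : 1050 * (K + 1) ^ 2 < Fintype.card G)
    (S : Set (MvPolynomial (Flow G) ℂ)) (hS : Ideal.span S = RingHom.ker (param G)) :
    ∃ p ∈ S, 2 ^ K ≤ p.totalDegree := by
  obtain ⟨lam, hlam⟩ := exists_good K h
  exact chain hK hlam S hS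

/-- Consequence: the bound `φ(G,3) ≤ |G|` fails for every abelian group of order `> 420000`. -/
theorem every_group_gt [Fintype G] (h : 420000 < Fintype.card G)
    (S : Set (MvPolynomial (Flow G) ℂ)) (hS : Ideal.span S = RingHom.ker (param G)) :
    ∃ p ∈ S, Fintype.card G < p.totalDegree := by
  have hpow : ∀ k, 1050 * (19 + k + 2) ^ 2 < 2 ^ (19 + k) := by
    intro k
    induction k with
    | zero => norm_num
    | succ k ih =>
      have : (19 + k + 1 + 2) ^ 2 ≤ 2 * (19 + k + 2) ^ 2 := by nlinarith [Nat.zero_le k]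
      rw [← add_assoc, pow_succ 2]; omega
  have hex : ∃ k, Fintype.card G ≤ 1050 * (19 + k + 2) ^ 2 := ⟨Fintype.card G, by nlinarith⟩
  classical
  have h1 := Nat.find_spec hex
  have h2 : 1050 * (19 + Nat.find hex + 1) ^ 2 < Fintype.card G := by
    rcases hk : Nat.find hex with _ | k
    · omega
    · have := Nat.find_min hex (show k < Nat.find hex by omega)
      rw [show 19 + (k + 1) + 1 = 19 + k + 2 by omega]
      omega
  obtain ⟨p, hp, hd⟩ := every_group (by omega) h2 S hS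
  exact ⟨p, hp, lt_of_lt_of_le (lt_of_le_of_lt h1 (hpow _)) hd⟩

end Pool.Agent.Lib.MP_8fff0f_ag
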